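import Pool.Agent.Helper10_BAN.Stmt

set_option autoImplicit false

namespace Pool.Agent.BAN.H4

open MeasureTheory Filter Topology Set
open scoped NNReal Nat

section Det

variable {E : Type} [NormedAddCommGroup E] [InnerProductSpace ℝ E] [FiniteDimensional ℝ E]

/-- matrix entry of an operator -/
noncomputable def ent (A : E →L[ℝ] E) (i j : Fin (Module.finrank ℝ E)) : ℝ :=
  inner ℝ (stdOrthonormalBasis ℝ E i) (A (stdOrthonormalBasis ℝ E j))

/-- complex determinant of `1 + z A` -/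
noncomputable def cdet (A : E →L[ℝ] E) (z : ℂ) : ℂ :=
  Matrix.det (Matrix.of fun i j : Fin (Module.finrank ℝ E) =>
    (if i = j then (1 : ℂ) else 0) + z * ((ent A i j : ℝ) : ℂ))

theorem cdet_real (A : E →L[ℝ] E) (t : ℝ) :
    cdet A (t : ℂ) = (((1 + t • A).det : ℝ) : ℂ) := by
  have h1 : (1 + t • A).det = Matrix.det (Matrix.of fun i j : Fin (Module.finrank ℝ E) =>
      (if i = j then (1 : ℝ) else 0) + t * ent A i j) := by
    have h2 : (1 + t • A).det = LinearMap.det ((1 + t • A : E →L[ℝ] E) : E →ₗ[ℝ] E) := rfl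
    rw [h2, ← LinearMap.det_toMatrix (stdOrthonormalBasis ℝ E).toBasis]
    congr 1
    ext i j
    rw [LinearMap.toMatrix_apply]
    simp only [OrthonormalBasis.coe_toBasis, OrthonormalBasis.coe_toBasis_repr_apply,
      OrthonormalBasis.repr_apply_apply, Matrix.of_apply, ent]
    have h3 : ((1 + t • A : E →L[ℝ] E) : E →ₗ[ℝ] E) (stdOrthonormalBasis ℝ E j) =
        stdOrthonormalBasis ℝ E j + t • A (stdOrthonormalBasis ℝ E j) := rfl
    rw [h3, inner_add_right, inner_smul_right,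
      orthonormal_iff_ite.mp (stdOrthonormalBasis ℝ E).orthonormal i j]
  rw [h1, cdet]
  have h4 : ((Matrix.det (Matrix.of fun i j : Fin (Module.finrank ℝ E) =>
      (if i = j then (1 : ℝ) else 0) + t * ent A i j) : ℝ) : ℂ) =
      Complex.ofRealHom (Matrix.det (Matrix.of fun i j : Fin (Module.finrank ℝ E) =>
      (if i = j then (1 : ℝ) else 0) + t * ent A i j)) := rfl
  rw [h4, RingHom.map_det]
  congr 1
  ext i j
  simp only [Matrix.of_apply, RingHom.mapMatrix_apply, Matrix.map_apply, Complex.ofRealHom_eq_coe]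
  push_cast
  split_ifs <;> simp

theorem cdet_diff (A : E →L[ℝ] E) : Differentiable ℂ (cdet A) := by
  unfold cdet
  simp only [Matrix.det_apply, Matrix.of_apply]
  fun_prop

theorem ent_le (A : E →L[ℝ] E) (i j : Fin (Module.finrank ℝ E)) : |ent A i j| ≤ ‖A‖ := by
  unfold ent
  refine (abs_real_inner_le_norm _ _).trans ?_
  rw [(stdOrthonormalBasis ℝ E).orthonormal.1 i, one_mul]
  refine (A.le_opNorm _).trans ?_
  rw [(stdOrthonormalBasis ℝ E).orthonormal.1 j, mul_one]

theorem cdet_bound (A : E →L[ℝ] E) (z : ℂ) (l R : ℝ) (hA : ‖A‖ ≤ l) (hz : ‖z‖ ≤ R) :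
    ‖cdet A z‖ ≤ (Module.finrank ℝ E)! * (1 + R * l) ^ Module.finrank ℝ E := by
  have hR : 0 ≤ R := le_trans (norm_nonneg _) hz
  have h := Matrix.det_le (abv := IsAbsoluteValue.toAbsoluteValue (norm : ℂ → ℝ))
    (A := Matrix.of fun i j : Fin (Module.finrank ℝ E) =>
      (if i = j then (1 : ℂ) else 0) + z * ((ent A i j : ℝ) : ℂ)) (x := 1 + R * l) (by
      intro i j
      show ‖(Matrix.of fun i j : Fin (Module.finrank ℝ E) =>
        (if i = j then (1 : ℂ) else 0) + z * ((ent A i j : ℝ) : ℂ)) i j‖ ≤ 1 + R * l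
      rw [Matrix.of_apply]
      refine (norm_add_le _ _).trans (add_le_add ?_ ?_)
      · split_ifs <;> simp
      · rw [norm_mul, Complex.norm_real]
        exact mul_le_mul hz ((ent_le A i j).trans hA) (norm_nonneg _) hR)
  rw [Fintype.card_fin, nsmul_eq_mul] at h
  exact h

theorem cdet_meas [MeasurableSpace E] [BorelSpace E] (M : E → E) (z : ℂ) :
    Measurable (fun x => cdet (fderiv ℝ M x) z) := by
  unfold cdet
  simp only [Matrix.det_apply, Matrix.of_apply]
  refine Finset.measurable_sum _ (fun σ _ => ?_)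
  refine Measurable.const_smul (Finset.measurable_prod _ (fun i _ => ?_)) _
  refine Measurable.const_add (Measurable.const_mul ?_ _) _
  refine Complex.measurable_ofReal.comp ?_
  unfold ent
  exact (measurable_const.inner (measurable_fderiv_apply_const ℝ M _))

end Det

section Main

variable {E : Type} [NormedAddCommGroup E] [InnerProductSpace ℝ E] [FiniteDimensional ℝ E]
  [MeasurableSpace E] [BorelSpace E]

theorem gauss_int (μ : Measure E) [μ.IsAddHaarMeasure] (b : ℝ) (hb : 0 < b) :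
    Integrable (fun x : E => Real.exp (-(b * ‖x‖ ^ 2))) μ := by
  have h1 : Integrable (fun x : E => Real.exp (-(b * ‖x‖ ^ 2))) (volume : Measure E) := by
    have h := (GaussianFourier.integrable_cexp_neg_mul_sq_norm_add (V := E) (b := (b : ℂ))
      (by simpa using hb) 0 0).norm
    refine h.congr (Filter.Eventually.of_forall fun x => ?_)
    simp only [Complex.norm_exp]
    congr 1
    simp only [zero_mul, add_zero, neg_mul, Complex.neg_re]
    norm_cast
  rw [Measure.isAddLeftInvariant_eq_smul μ (volume : Measure E)]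
  exact h1.smul_measure_nnreal

/-- the complexified exponent -/
noncomputable def expo (M : E → E) (ξ : E) (z : ℂ) (x : E) : ℂ :=
  -(((‖x‖ ^ 2 : ℝ) : ℂ) + 2 * z * ((inner ℝ x (M x) : ℝ) : ℂ) +
    z ^ 2 * ((‖M x‖ ^ 2 : ℝ) : ℂ)) +
    Complex.I * (((inner ℝ ξ x : ℝ) : ℂ) + z * ((inner ℝ ξ (M x) : ℝ) : ℂ))

theorem expo_real (M : E → E) (ξ : E) (t : ℝ) (x : E) :
    expo M ξ (t : ℂ) x = -((‖x + t • M x‖ ^ 2 : ℝ) : ℂ) +
      Complex.I * ((inner ℝ ξ (x + t • M x) : ℝ) : ℂ) := by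
  have h1 : ‖x + t • M x‖ ^ 2 = ‖x‖ ^ 2 + 2 * t * inner ℝ x (M x) + t ^ 2 * ‖M x‖ ^ 2 := by
    rw [norm_add_sq_real, inner_smul_right, norm_smul, mul_pow, Real.norm_eq_abs, sq_abs]
    ring
  have h2 : inner ℝ ξ (x + t • M x) = inner ℝ ξ x + t * inner ℝ ξ (M x) := by
    rw [inner_add_right, inner_smul_right]
  rw [h1, h2, expo]
  push_cast
  ring

theorem expo_re (M : E → E) (ξ : E) (z : ℂ) (x : E) :
    (expo M ξ z x).re = -(‖x + z.re • M x‖ ^ 2 - z.im ^ 2 * ‖M x‖ ^ 2) -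
      z.im * inner ℝ ξ (M x) := by
  have h1 : ‖x + z.re • M x‖ ^ 2 = ‖x‖ ^ 2 + 2 * z.re * inner ℝ x (M x) +
      z.re ^ 2 * ‖M x‖ ^ 2 := by
    rw [norm_add_sq_real, inner_smul_right, norm_smul, mul_pow, Real.norm_eq_abs, sq_abs]
    ring
  rw [h1, expo]
  simp only [Complex.add_re, Complex.neg_re, Complex.mul_re, Complex.ofReal_re,
    Complex.ofReal_im, Complex.I_re, Complex.I_im, Complex.add_im, Complex.mul_im, pow_two,
    Complex.re_ofNat, Complex.im_ofNat]
  ring

/-- DEGC -/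
theorem degc (hCVS : CVSStmt) (hHOLP : HOLPStmt) : DEGCStmt := by
  intro E _ _ _ _ _ μ _ F L c hF hF0 hc hlow ξ
  -- the perturbation
  obtain ⟨M, hM⟩ : ∃ M : E → E, M = fun x => F x - x := ⟨_, rfl⟩
  have hMl : LipschitzWith (L + 1) M := by
    rw [hM]
    exact hF.sub LipschitzWith.id
  obtain ⟨l, hl⟩ : ∃ l : ℝ, l = (L : ℝ) + 1 := ⟨_, rfl⟩
  have hl0 : 0 ≤ (L : ℝ) := L.coe_nonneg
  have hl1 : 1 ≤ l := by rw [hl]; linarith
  have hM0 : M 0 = 0 := by rw [hM]; simp [hF0]
  have hMn : ∀ x, ‖M x‖ ≤ l * ‖x‖ := by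
    intro x
    have h := hMl.norm_sub_le x 0
    rw [hM0, sub_zero, sub_zero] at h
    rw [hl]
    exact_mod_cast h
  have hMd : ∀ x, ‖fderiv ℝ M x‖ ≤ l := by
    intro x
    have h := norm_fderiv_le_of_lipschitz ℝ hMl (x₀ := x)
    rw [hl]
    exact_mod_cast h
  have hFM : ∀ (s : ℝ) (x : E), (1 - s) • x + s • F x = x + s • M x := by
    intro s x
    rw [hM, smul_sub, sub_smul, one_smul]
    abel
  -- parameters
  obtain ⟨η, hη⟩ : ∃ η : ℝ, η = c / (4 * (l + 1)) := ⟨_, rfl⟩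
  have hη0 : 0 < η := by rw [hη]; positivity
  have hηl : η * l ≤ c / 4 := by
    rw [hη, div_mul_eq_mul_div, div_le_div_iff₀ (by positivity) (by positivity)]
    nlinarith
  obtain ⟨U, hU⟩ : ∃ U : Set ℂ, U = {z | -η < z.re ∧ z.re < 1 + η ∧ -η < z.im ∧ z.im < η} :=
    ⟨_, rfl⟩
  have hUo : IsOpen U := by
    rw [hU]
    exact (isOpen_lt continuous_const Complex.continuous_re).inter
      ((isOpen_lt Complex.continuous_re continuous_const).inter
        ((isOpen_lt continuous_const Complex.continuous_im).inter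
          (isOpen_lt Complex.continuous_im continuous_const)))
  have hUc : Convex ℝ U := by
    rw [hU]
    exact (convex_halfSpace_re_gt (-η)).inter ((convex_halfSpace_re_lt (1 + η)).inter
      ((convex_halfSpace_im_gt (-η)).inter (convex_halfSpace_im_lt η)))
  -- lower bound of the quadratic form
  have hlow2 : ∀ s : ℝ, -η < s → s < 1 + η → ∀ x, (3 / 4 * c) * ‖x‖ ≤ ‖x + s • M x‖ := by
    intro s h1 h2 x
    obtain ⟨s', hs0, hs1, hs2⟩ : ∃ s' : ℝ, 0 ≤ s' ∧ s' ≤ 1 ∧ |s - s'| ≤ η := by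
      rcases lt_or_ge s 0 with h | h
      · exact ⟨0, le_refl _, by norm_num, by rw [abs_le]; constructor <;> linarith⟩
      · rcases lt_or_ge 1 s with h' | h'
        · exact ⟨1, by norm_num, le_refl _, by rw [abs_le]; constructor <;> linarith⟩
        · exact ⟨s, h, h', by rw [sub_self, abs_zero]; exact hη0.le⟩
    have h3 := hlow s' hs0 hs1 x
    rw [hFM] at h3
    have h4 : x + s' • M x = (x + s • M x) - (s - s') • M x := by
      rw [sub_smul]
      abel
    have h5 : ‖x + s' • M x‖ ≤ ‖x + s • M x‖ + ‖(s - s') • M x‖ := by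
      rw [h4]
      exact norm_sub_le _ _
    have h6 : ‖(s - s') • M x‖ ≤ (c / 4) * ‖x‖ := by
      rw [norm_smul, Real.norm_eq_abs]
      calc |s - s'| * ‖M x‖ ≤ η * (l * ‖x‖) :=
            mul_le_mul hs2 (hMn x) (norm_nonneg _) hη0.le
        _ = (η * l) * ‖x‖ := by ring
        _ ≤ (c / 4) * ‖x‖ := mul_le_mul_of_nonneg_right hηl (norm_nonneg _)
    linarith
  obtain ⟨B, hB⟩ : ∃ B : ℝ, B = η * l * ‖ξ‖ := ⟨_, rfl⟩
  have hB0 : 0 ≤ B := by rw [hB]; positivity
  have hexp : ∀ z ∈ U, ∀ x, (expo M ξ z x).re ≤ -(c ^ 2 / 2 * ‖x‖ ^ 2) + B * ‖x‖ := by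
    intro z hz x
    rw [hU] at hz
    obtain ⟨z1, z2, z3, z4⟩ := hz
    rw [expo_re]
    have h1 := hlow2 z.re z1 z2 x
    have h2 : (3 / 4 * c) ^ 2 * ‖x‖ ^ 2 ≤ ‖x + z.re • M x‖ ^ 2 := by
      rw [← mul_pow]
      exact pow_le_pow_left₀ (by positivity) h1 2
    have h3 : z.im ^ 2 * ‖M x‖ ^ 2 ≤ (c / 4) ^ 2 * ‖x‖ ^ 2 := by
      rw [← mul_pow, ← mul_pow, ← sq_abs, abs_mul, abs_of_nonneg (norm_nonneg (M x))]
      refine pow_le_pow_left₀ (by positivity) ?_ 2
      calc |z.im| * ‖M x‖ ≤ η * (l * ‖x‖) :=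
            mul_le_mul (abs_le.mpr ⟨by linarith, by linarith⟩) (hMn x) (norm_nonneg _) hη0.le
        _ = (η * l) * ‖x‖ := by ring
        _ ≤ (c / 4) * ‖x‖ := mul_le_mul_of_nonneg_right hηl (norm_nonneg _)
    have h4 : -(z.im * inner ℝ ξ (M x)) ≤ B * ‖x‖ := by
      refine (neg_le_abs _).trans ?_
      rw [abs_mul, hB]
      calc |z.im| * |inner ℝ ξ (M x)| ≤ η * (‖ξ‖ * (l * ‖x‖)) := by
            refine mul_le_mul (abs_le.mpr ⟨by linarith, by linarith⟩) ?_ (abs_nonneg _) hη0.le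
            exact (abs_real_inner_le_norm _ _).trans
              (mul_le_mul_of_nonneg_left (hMn x) (norm_nonneg _))
        _ = η * l * ‖ξ‖ * ‖x‖ := by ring
    nlinarith
  -- the integrand
  obtain ⟨G, hG⟩ : ∃ G : ℂ → E → ℂ, G = fun z x =>
    Complex.exp (expo M ξ z x) * cdet (fderiv ℝ M x) z := ⟨_, rfl⟩
  obtain ⟨D, hD⟩ : ∃ D : ℝ, D = (Module.finrank ℝ E)! *
    (1 + (1 + 2 * η) * l) ^ Module.finrank ℝ E := ⟨_, rfl⟩
  have hD0 : 0 ≤ D := by rw [hD]; positivity
  obtain ⟨h, hh⟩ : ∃ h : E → ℝ, h = fun x =>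
    (Real.exp (B ^ 2 / c ^ 2) * D) * Real.exp (-(c ^ 2 / 4 * ‖x‖ ^ 2)) := ⟨_, rfl⟩
  have hhint : Integrable h μ := by
    rw [hh]
    exact (gauss_int μ (c ^ 2 / 4) (by positivity)).const_mul _
  have hbound : ∀ x, ∀ z ∈ U, ‖G z x‖ ≤ h x := by
    intro x z hz
    have h1 := hexp z hz x
    have h2 : ‖cdet (fderiv ℝ M x) z‖ ≤ D := by
      rw [hD]
      refine cdet_bound _ z l (1 + 2 * η) (hMd x) ?_
      rw [hU] at hz
      obtain ⟨z1, z2, z3, z4⟩ := hz
      refine (Complex.norm_le_abs_re_add_abs_im z).trans ?_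
      have e1 : |z.re| ≤ 1 + η := abs_le.mpr ⟨by linarith, by linarith⟩
      have e2 : |z.im| ≤ η := abs_le.mpr ⟨by linarith, by linarith⟩
      linarith
    rw [hG, hh]
    simp only
    rw [norm_mul, Complex.norm_exp]
    have h3 : Real.exp (expo M ξ z x).re ≤
        Real.exp (B ^ 2 / c ^ 2) * Real.exp (-(c ^ 2 / 4 * ‖x‖ ^ 2)) := by
      rw [← Real.exp_add]
      apply Real.exp_le_exp.mpr
      refine h1.trans ?_
      have h4 : B * ‖x‖ ≤ B ^ 2 / c ^ 2 + c ^ 2 / 4 * ‖x‖ ^ 2 := by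
        have h5 : 0 ≤ (B / c - c / 2 * ‖x‖) ^ 2 := sq_nonneg _
        have h6 : (B / c - c / 2 * ‖x‖) ^ 2 = B ^ 2 / c ^ 2 + c ^ 2 / 4 * ‖x‖ ^ 2 -
            B * ‖x‖ := by
          field_simp
          ring
        linarith
      linarith
    calc Real.exp (expo M ξ z x).re * ‖cdet (fderiv ℝ M x) z‖
        ≤ (Real.exp (B ^ 2 / c ^ 2) * Real.exp (-(c ^ 2 / 4 * ‖x‖ ^ 2))) * D :=
          mul_le_mul h3 h2 (norm_nonneg _) (by positivity)
      _ = _ := by ring
  have hmeas : ∀ z ∈ U, AEStronglyMeasurable (G z) μ := by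
    intro z _
    rw [hG]
    have hMc : Continuous M := hMl.continuous
    have h1 : Continuous (fun x => Complex.exp (expo M ξ z x)) := by
      unfold expo
      fun_prop
    exact (h1.measurable.mul (cdet_meas M z)).aestronglyMeasurable
  have hdiff : ∀ x, DifferentiableOn ℂ (fun z => G z x) U := by
    intro x
    rw [hG]
    have h1 : Differentiable ℂ (fun z => Complex.exp (expo M ξ z x)) := by
      unfold expo
      fun_prop
    exact (h1.mul (cdet_diff _)).differentiableOn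
  have hJ := hHOLP E μ U G h hUo hmeas hhint (Filter.Eventually.of_forall hbound)
    (Filter.Eventually.of_forall hdiff)
  have hJa := hJ.analyticOnNhd hUo
  -- the constant
  obtain ⟨g, hg⟩ : ∃ g : E → ℂ, g = fun y =>
    Complex.exp (-((‖y‖ ^ 2 : ℝ) : ℂ) + Complex.I * ((inner ℝ ξ y : ℝ) : ℂ)) := ⟨_, rfl⟩
  have hgc : Continuous g := by
    rw [hg]
    fun_prop
  have hsmall : ∀ t : ℝ, t ≠ 0 → |t| * l < 1 → ∫ x, G (t : ℂ) x ∂μ = ∫ x, g x ∂μ := by
    intro t ht0 ht
    have hK : (‖t‖₊ * (L + 1)) < 1 := by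
      rw [← NNReal.coe_lt_coe]
      push_cast
      rw [Real.norm_eq_abs, ← hl]
      exact ht
    have hlip : LipschitzWith (‖t‖₊ * (L + 1)) (fun x => t • M x) := by
      refine LipschitzWith.of_dist_le_mul fun x y => ?_
      rw [dist_eq_norm, ← smul_sub, norm_smul]
      have := hMl.dist_le_mul x y
      rw [dist_eq_norm] at this
      push_cast at this ⊢
      rw [mul_assoc]
      exact mul_le_mul_of_nonneg_left this (norm_nonneg _)
    have h1 := hCVS E μ (fun x => t • M x) (‖t‖₊ * (L + 1)) hK hlip g hgc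
    rw [← h1]
    congr 1
    ext x
    rw [hG, hg]
    simp only
    rw [expo_real, cdet_real]
    congr 4
    exact (congrFun (fderiv_const_smul_field (𝕜 := ℝ) (f := M) t) x).symm
  have h0U : (0 : ℂ) ∈ U := by
    rw [hU]
    refine ⟨?_, ?_, ?_, ?_⟩ <;> simp <;> linarith
  have h1U : (1 : ℂ) ∈ U := by
    rw [hU]
    refine ⟨?_, ?_, ?_, ?_⟩ <;> simp <;> linarith
  have hfreq : ∃ᶠ z in 𝓝[≠] (0 : ℂ), (fun z => ∫ x, G z x ∂μ) z =
      (fun _ : ℂ => ∫ x, g x ∂μ) z := by
    have hlim : Tendsto (fun n : ℕ => (((1 / (2 * l) / ((n : ℝ) + 1) : ℝ) : ℂ))) atTop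
        (𝓝[≠] (0 : ℂ)) := by
      rw [tendsto_nhdsWithin_iff]
      constructor
      · have h1 : Tendsto (fun n : ℕ => 1 / (2 * l) / ((n : ℝ) + 1)) atTop (𝓝 0) := by
          have := tendsto_one_div_add_atTop_nhds_zero_nat (𝕜 := ℝ)
          have h2 := this.const_mul (1 / (2 * l))
          rw [mul_zero] at h2
          refine h2.congr (fun n => ?_)
          ring
        have h3 := (Complex.continuous_ofReal.tendsto 0).comp h1
        rw [Complex.ofReal_zero] at h3
        exact h3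
      · refine Filter.Eventually.of_forall (fun n => ?_)
        simp only [mem_compl_iff, mem_singleton_iff, Complex.ofReal_eq_zero]
        positivity
    refine hlim.frequently (Filter.Frequently.of_forall (fun n => ?_))
    refine hsmall _ (by positivity) ?_
    have hn : 0 < (n : ℝ) + 1 := by positivity
    rw [abs_of_pos (by positivity), div_div, div_mul_eq_mul_div, div_lt_one (by positivity)]
    have : (0 : ℝ) ≤ n := Nat.cast_nonneg n
    nlinarith
  have hconst : AnalyticOnNhd ℂ (fun _ : ℂ => ∫ x, g x ∂μ) U := analyticOnNhd_const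
  have hfin := hJa.eqOn_of_preconnected_of_frequently_eq hconst hUc.isPreconnected h0U hfreq h1U
  simp only at hfin
  rw [hg] at hfin
  rw [← hfin]
  apply integral_congr_ae
  filter_upwards [hF.ae_differentiableAt (μ := μ)] with x hx
  rw [hG]
  simp only
  have e1 : expo M ξ 1 x = -((‖F x‖ ^ 2 : ℝ) : ℂ) + Complex.I * ((inner ℝ ξ (F x) : ℝ) : ℂ) := by
    have := expo_real M ξ 1 x
    rw [Complex.ofReal_one, one_smul] at this
    rw [this, hM]
    simp
  have e2 : cdet (fderiv ℝ M x) 1 = (((fderiv ℝ F x).det : ℝ) : ℂ) := by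
    have := cdet_real (fderiv ℝ M x) 1
    rw [Complex.ofReal_one, one_smul] at this
    rw [this]
    congr 2
    rw [hM, fderiv_fun_sub hx differentiableAt_fun_id, fderiv_fun_id]
    ext v
    simp
  rw [e1, e2]

end Main

end Pool.Agent.BAN.H4
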