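import Pool.Agent.Helper10_BAN.Stmt

set_option autoImplicit false

namespace Pool.Agent.BAN.H4

open MeasureTheory Filter Topology Set Metric
open scoped NNReal ENNReal

/-- A closed set of a real finite dimensional space which is porous at all its nonzero points
has null nonzero part. -/
theorem orb_porous {E : Type} [NormedAddCommGroup E] [NormedSpace ℝ E] [FiniteDimensional ℝ E]
    [MeasurableSpace E] [BorelSpace E] (μ : Measure E) [μ.IsAddHaarMeasure] (C : Set E)
    (hC : IsClosed C)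
    (h : ∀ z ∈ C, z ≠ 0 → ∃ w : E, ‖w‖ = 1 ∧ ∃ δ : ℝ, 0 < δ ∧ ∀ s : ℝ, 0 < s → s < δ →
      Disjoint (ball (z + (s / 2) • w) (s / 2)) C) :
    μ (C \ {0}) = 0 := by
  have key := Besicovitch.ae_tendsto_measure_inter_div_of_measurableSet μ hC.measurableSet
  rw [ae_iff] at key
  refine measure_mono_null ?_ key
  rintro z ⟨hz, hz0⟩ hlim
  have hz0' : z ≠ 0 := hz0
  have : Nontrivial E := ⟨⟨z, 0, hz0'⟩⟩
  obtain ⟨w, hw, δ, hδ, hs⟩ := h z hz hz0'
  have hlim1 : Tendsto (fun r => μ (C ∩ closedBall z r) / μ (closedBall z r)) (𝓝[>] 0)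
      (𝓝 1) := by
    simpa [hz] using hlim
  set q : ℝ≥0∞ := ENNReal.ofReal ((1 / 2 : ℝ) ^ Module.finrank ℝ E) with hq
  have hq0 : q ≠ 0 := by
    rw [hq]
    simp
  have hlim2 : Tendsto (fun r => μ (C ∩ closedBall z r) / μ (closedBall z r) + q) (𝓝[>] 0)
      (𝓝 (1 + q)) := hlim1.add tendsto_const_nhds
  have hle : ∀ᶠ r in 𝓝[>] (0 : ℝ), μ (C ∩ closedBall z r) / μ (closedBall z r) + q ≤ 1 := by
    have : ∀ᶠ r in 𝓝[>] (0 : ℝ), r ∈ Ioo (0 : ℝ) δ := Ioo_mem_nhdsGT hδ
    filter_upwards [this] with s hsδ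
    obtain ⟨hs0, hs1⟩ := hsδ
    have hd := hs s hs0 hs1
    have hpos : 0 < μ (closedBall z s) := measure_closedBall_pos μ z hs0
    have hfin : μ (closedBall z s) ≠ ⊤ := measure_closedBall_lt_top.ne
    have hball : μ (ball (z + (s / 2) • w) (s / 2)) = q * μ (closedBall z s) := by
      rw [Measure.addHaar_ball μ _ (by linarith), Measure.addHaar_closedBall μ _ hs0.le,
        ← mul_assoc, hq, ← ENNReal.ofReal_mul (by positivity), ← mul_pow]
      congr 3
      ring
    have hsub : (C ∩ closedBall z s) ∪ ball (z + (s / 2) • w) (s / 2) ⊆ closedBall z s := by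
      rintro y (hy | hy)
      · exact hy.2
      · rw [mem_ball, dist_eq_norm] at hy
        rw [mem_closedBall, dist_eq_norm]
        calc ‖y - z‖ = ‖(y - (z + (s / 2) • w)) + (s / 2) • w‖ := by congr 1; abel
          _ ≤ ‖y - (z + (s / 2) • w)‖ + ‖(s / 2) • w‖ := norm_add_le _ _
          _ ≤ s / 2 + s / 2 := by
              gcongr
              rw [norm_smul, hw, mul_one, Real.norm_of_nonneg (by linarith)]
          _ = s := by ring
    have hdis : Disjoint (C ∩ closedBall z s) (ball (z + (s / 2) • w) (s / 2)) :=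
      (hd.symm).mono_left inter_subset_left
    have hsum : μ (C ∩ closedBall z s) + q * μ (closedBall z s) ≤ μ (closedBall z s) := by
      rw [← hball, ← measure_union hdis measurableSet_ball]
      exact measure_mono hsub
    have h1 : μ (C ∩ closedBall z s) / μ (closedBall z s) + q
        = (μ (C ∩ closedBall z s) + q * μ (closedBall z s)) / μ (closedBall z s) := by
      rw [ENNReal.add_div, ENNReal.mul_div_cancel_right hpos.ne' hfin]
    rw [h1]
    exact ENNReal.div_le_of_le_mul (by rw [one_mul]; exact hsum)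
  have hfinal : 1 + q ≤ 1 := le_of_tendsto hlim2 hle
  have : (1 : ℝ≥0∞) + q ≤ 1 + 0 := by simpa using hfinal
  have := (ENNReal.add_le_add_iff_left ENNReal.one_ne_top).1 this
  exact hq0 (le_antisymm this bot_le)

/-- The sets `{t κ v}` are closed. -/
theorem orb_closed {𝕜 : Type} [RCLike 𝕜] {V : Type} [NormedAddCommGroup V]
    [InnerProductSpace 𝕜 V] [FiniteDimensional 𝕜 V] (K : Set (V →L[𝕜] V)) (v : V)
    (hK : CGrp K) (hv : v ≠ 0) :
    IsClosed {x : V | ∃ t : ℝ, ∃ κ ∈ K, x = ((t : ℝ) : 𝕜) • κ v} := by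
  have : ProperSpace (V →L[𝕜] V) := FiniteDimensional.proper 𝕜 _
  have hKc : IsCompact K := by
    refine Metric.isCompact_of_isClosed_isBounded hK.closed ?_
    refine (Metric.isBounded_closedBall (x := (0 : V →L[𝕜] V)) (r := 1)).subset ?_
    intro κ hκ
    rw [mem_closedBall, dist_zero_right]
    refine ContinuousLinearMap.opNorm_le_bound _ zero_le_one fun x => ?_
    rw [hK.iso κ hκ, one_mul]
  have hvn : 0 < ‖v‖ := norm_pos_iff.2 hv
  refine isClosed_of_closure_subset fun x hx => ?_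
  set R : ℝ := (‖x‖ + 1) / ‖v‖ with hR
  have hcomp : IsCompact ((fun p : ℝ × (V →L[𝕜] V) => ((p.1 : ℝ) : 𝕜) • p.2 v) ''
      (Icc (-R) R ×ˢ K)) := by
    refine (isCompact_Icc.prod hKc).image ?_
    fun_prop
  have hx2 : x ∈ closure ({x : V | ∃ t : ℝ, ∃ κ ∈ K, x = ((t : ℝ) : 𝕜) • κ v} ∩ ball x 1) := by
    rw [mem_closure_iff_nhds] at hx ⊢
    intro U hU
    obtain ⟨y, hy1, hy2⟩ := hx (U ∩ ball x 1) (inter_mem hU (ball_mem_nhds x one_pos))
    exact ⟨y, hy1.1, hy2, hy1.2⟩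
  have hsub : ({x : V | ∃ t : ℝ, ∃ κ ∈ K, x = ((t : ℝ) : 𝕜) • κ v} ∩ ball x 1) ⊆
      ((fun p : ℝ × (V →L[𝕜] V) => ((p.1 : ℝ) : 𝕜) • p.2 v) '' (Icc (-R) R ×ˢ K)) := by
    rintro y ⟨⟨t, κ, hκ, rfl⟩, hy⟩
    refine ⟨(t, κ), ⟨?_, hκ⟩, rfl⟩
    have h1 : |t| * ‖v‖ ≤ ‖x‖ + 1 := by
      have h2 : ‖((t : ℝ) : 𝕜) • κ v‖ = |t| * ‖v‖ := by
        rw [norm_smul, hK.iso κ hκ, RCLike.norm_ofReal]
      rw [← h2]
      rw [mem_ball, dist_eq_norm] at hy
      calc ‖((t : ℝ) : 𝕜) • κ v‖ = ‖x + (((t : ℝ) : 𝕜) • κ v - x)‖ := by congr 1; abel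
        _ ≤ ‖x‖ + ‖((t : ℝ) : 𝕜) • κ v - x‖ := norm_add_le _ _
        _ ≤ ‖x‖ + 1 := by linarith
    have h3 : |t| ≤ R := by
      rw [hR, le_div_iff₀ hvn]
      exact h1
    exact abs_le.1 h3
  have := closure_minimal hsub hcomp.isClosed hx2
  obtain ⟨⟨t, κ⟩, ⟨_, hκ⟩, hx'⟩ := this
  exact ⟨t, κ, hκ, hx'.symm⟩

theorem orb : ORBStmt := by
  intro 𝕜 _ V _ _ _ _ _ μ _ K v hK ⟨u, hu⟩
  set C : Set V := {x : V | ∃ t : ℝ, ∃ κ ∈ K, x = ((t : ℝ) : 𝕜) • κ v} with hCdef
  have h0C : (0 : V) ∈ C := ⟨0, 1, hK.one, by simp⟩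
  have huC : u ∉ C := by
    rintro ⟨t, κ, hκ, h⟩
    exact hu t κ hκ h
  have hu0 : u ≠ 0 := by
    rintro rfl
    exact huC h0C
  let _ : NormedSpace ℝ V := NormedSpace.restrictScalars ℝ 𝕜 V
  have : IsScalarTower ℝ 𝕜 V := ⟨fun a b x => by
    show (a • b) • x = (algebraMap ℝ 𝕜 a) • (b • x)
    rw [← mul_smul, Algebra.smul_def]⟩
  have : FiniteDimensional ℝ V := Module.Finite.trans 𝕜 V
  have : Nontrivial V := ⟨⟨u, 0, hu0⟩⟩
  have hsm : ∀ (t : ℝ) (x : V), t • x = ((t : ℝ) : 𝕜) • x := fun t x => rfl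
  have hsing : μ ({0} : Set V) = 0 := measure_singleton 0
  by_cases hv : v = 0
  · have : C ⊆ {0} := by
      rintro x ⟨t, κ, hκ, rfl⟩
      simp [hv]
    exact measure_mono_null this hsing
  have hCcl : IsClosed C := orb_closed K v hK hv
  have hvC : v ∈ C := ⟨1, 1, hK.one, by simp⟩
  -- real multiples of points of `C`
  have hmul : ∀ (t : ℝ) (x : V), x ∈ C → t • x ∈ C := by
    rintro t x ⟨s, κ, hκ, rfl⟩
    refine ⟨t * s, κ, hκ, ?_⟩
    rw [hsm, RCLike.ofReal_mul, mul_smul]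
  have hKC : ∀ g ∈ K, ∀ x ∈ C, g x ∈ C := by
    rintro g hg x ⟨s, κ, hκ, rfl⟩
    refine ⟨s, g * κ, hK.mul g hg κ hκ, ?_⟩
    rw [map_smul]
    rfl
  -- base point
  obtain ⟨z0, hz0C, hz00, w0, hw0, r, hr, hpor⟩ : ∃ z0 ∈ C, z0 ≠ 0 ∧ ∃ w0 : V, ‖w0‖ = 1 ∧
      ∃ r : ℝ, 0 < r ∧ ∀ s : ℝ, 0 < s → s < r →
        Disjoint (ball (z0 + (s / 2) • w0) (s / 2)) C := by
    -- the last point of the segment in `C`
    have hpc : Continuous fun t : ℝ => v + t • (u - v) := by fun_prop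
    have hScomp : IsCompact (Icc (0 : ℝ) 1 ∩ (fun t : ℝ => v + t • (u - v)) ⁻¹' C) :=
      isCompact_Icc.inter_right (hCcl.preimage hpc)
    obtain ⟨ts, ⟨hts01, htsC⟩, htsmax⟩ := hScomp.exists_isGreatest ⟨0, by simp [hvC]⟩
    have htsC' : v + ts • (u - v) ∈ C := htsC
    have hts1 : ts < 1 := by
      refine lt_of_le_of_ne hts01.2 ?_
      rintro rfl
      exact huC (by simpa using htsC')
    have hne : v + ts • (u - v) ≠ 0 := by
      intro h
      rcases eq_or_ne ts 0 with h0 | h0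
      · rw [h0] at h
        exact hv (by simpa using h)
      · apply huC
        have h1 : u = (-(1 - ts) / ts) • v := by
          have h2 : ts • u = (-(1 - ts)) • v := by
            have h3 : v + ts • (u - v) = (1 - ts) • v + ts • u := by
              rw [smul_sub, sub_smul, one_smul]; abel
            rw [h3] at h
            rw [neg_smul]
            exact eq_neg_of_add_eq_zero_right h
          calc u = ts⁻¹ • (ts • u) := by rw [smul_smul, inv_mul_cancel₀ h0, one_smul]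
            _ = (-(1 - ts) / ts) • v := by
              rw [h2, smul_smul]
              congr 1
              field_simp
        rw [h1]
        exact hmul _ _ hvC
    set zs := v + ts • (u - v) with hzs
    have hzsn : 0 < ‖zs‖ := norm_pos_iff.2 hne
    have huv : 0 < ‖u - v‖ := by
      rw [norm_pos_iff, sub_ne_zero]
      rintro rfl
      exact huC hvC
    obtain ⟨e, he0, he1, he2⟩ : ∃ e : ℝ, 0 < e ∧ ts + e ≤ 1 ∧ e * ‖u - v‖ < ‖zs‖ / 2 := by
      refine ⟨min (1 - ts) (‖zs‖ / 4 / ‖u - v‖), lt_min (by linarith) (by positivity), ?_, ?_⟩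
      · have := min_le_left (1 - ts) (‖zs‖ / 4 / ‖u - v‖)
        linarith
      · calc min (1 - ts) (‖zs‖ / 4 / ‖u - v‖) * ‖u - v‖
            ≤ (‖zs‖ / 4 / ‖u - v‖) * ‖u - v‖ := by
              gcongr
              exact min_le_right _ _
          _ = ‖zs‖ / 4 := by field_simp
          _ < ‖zs‖ / 2 := by linarith
    set u' := v + (ts + e) • (u - v) with hu'
    have hu'C : u' ∉ C := by
      intro h
      have : ts + e ≤ ts := htsmax ⟨⟨by linarith [hts01.1], he1⟩, h⟩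
      linarith
    have hdist : dist u' zs < ‖zs‖ / 2 := by
      rw [dist_eq_norm, hu', hzs, add_sub_add_left_eq_sub, ← sub_smul, add_sub_cancel_left,
        norm_smul, Real.norm_of_nonneg he0.le, ← hzs]
      exact he2
    obtain ⟨z, hzC, hz⟩ := hCcl.exists_infDist_eq_dist ⟨0, h0C⟩ u'
    have hzle : ∀ y ∈ C, dist u' z ≤ dist u' y := by
      intro y hy
      rw [← hz]
      exact infDist_le_dist_of_mem hy
    have hzne : z ≠ 0 := by
      rintro rfl
      have h1 := hzle zs htsC'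
      have h2 : ‖zs‖ ≤ dist u' zs + dist u' 0 := by
        calc ‖zs‖ = dist zs 0 := (dist_zero_right zs).symm
          _ ≤ dist zs u' + dist u' 0 := dist_triangle _ _ _
          _ = dist u' zs + dist u' 0 := by rw [dist_comm]
      linarith
    have hr : 0 < ‖u' - z‖ := by
      rw [norm_pos_iff, sub_ne_zero]
      rintro rfl
      exact hu'C hzC
    refine ⟨z, hzC, hzne, (‖u' - z‖⁻¹) • (u' - z), ?_, ‖u' - z‖, hr, ?_⟩
    · rw [norm_smul, norm_inv, norm_norm, inv_mul_cancel₀ hr.ne']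
    · intro s hs0 hs1
      rw [Set.disjoint_left]
      intro y hy hyC
      have h1 := hzle y hyC
      rw [mem_ball, dist_eq_norm] at hy
      rw [dist_eq_norm, dist_eq_norm] at h1
      have h2 : ‖u' - y‖ ≤ ‖y - (z + (s / 2) • (‖u' - z‖⁻¹ • (u' - z)))‖ +
          ‖(z + (s / 2) • (‖u' - z‖⁻¹ • (u' - z))) - u'‖ := by
        rw [norm_sub_rev u' y]
        calc ‖y - u'‖ = ‖(y - (z + (s / 2) • (‖u' - z‖⁻¹ • (u' - z)))) +
            ((z + (s / 2) • (‖u' - z‖⁻¹ • (u' - z))) - u')‖ := by congr 1; abel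
          _ ≤ _ := norm_add_le _ _
      have h3 : (z + (s / 2) • (‖u' - z‖⁻¹ • (u' - z))) - u'
          = (-(1 - (s / 2) * ‖u' - z‖⁻¹)) • (u' - z) := by
        rw [smul_smul, neg_smul, sub_smul, one_smul]
        abel
      have h4 : ‖(z + (s / 2) • (‖u' - z‖⁻¹ • (u' - z))) - u'‖ = ‖u' - z‖ - s / 2 := by
        rw [h3, norm_smul, norm_neg, Real.norm_of_nonneg]
        · field_simp
        · have : (s / 2) * ‖u' - z‖⁻¹ ≤ 1 := by
            rw [← div_eq_mul_inv, div_le_one hr]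
            linarith
          linarith
      rw [h4] at h2
      linarith
  have hnull : μ (C \ {0}) = 0 := by
    refine orb_porous μ C hCcl ?_
    intro z hzC hz0
    obtain ⟨t0, κ0, hκ0, hz0eq⟩ := hz0C
    obtain ⟨t1, κ1, hκ1, hz1eq⟩ := hzC
    have ht0 : t0 ≠ 0 := by
      rintro rfl
      exact hz00 (by simp [hz0eq])
    have ht1 : t1 ≠ 0 := by
      rintro rfl
      exact hz0 (by simp [hz1eq])
    obtain ⟨i0, hi0, hi01, hi02⟩ := hK.inv κ0 hκ0
    obtain ⟨i1, hi1, hi11, hi12⟩ := hK.inv κ1 hκ1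
    -- the similarity and its inverse
    set ρ : ℝ := t1 / t0 with hρ
    have hρ0 : ρ ≠ 0 := div_ne_zero ht1 ht0
    have hρa : 0 < |ρ| := abs_pos.2 hρ0
    have hAB : ∀ x, κ0 (i1 (κ1 (i0 x))) = x := by
      intro x
      have e1 : i1 (κ1 (i0 x)) = i0 x := by
        have := congrArg (fun f : V →L[𝕜] V => f (i0 x)) hi11
        simpa using this
      rw [e1]
      have := congrArg (fun f : V →L[𝕜] V => f x) hi02
      simpa using this
    have hi0z : i0 (κ0 v) = v := by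
      have := congrArg (fun f : V →L[𝕜] V => f v) hi01
      simpa using this
    refine ⟨(ρ / |ρ|) • κ1 (i0 w0), ?_, |ρ| * r, by positivity, ?_⟩
    · rw [norm_smul, hK.iso κ1 hκ1, hK.iso i0 hi0, hw0, mul_one, norm_div, Real.norm_eq_abs,
        Real.norm_eq_abs, abs_abs, div_self hρa.ne']
    · intro s hs0 hs1
      rw [Set.disjoint_left]
      intro y hy hyC
      have hs' : s / |ρ| < r := by
        rw [div_lt_iff₀ hρa]
        linarith
      have hd := hpor (s / |ρ|) (by positivity) hs'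
      rw [Set.disjoint_left] at hd
      have hy'C : ρ⁻¹ • κ0 (i1 y) ∈ C := hmul _ _ (hKC κ0 hκ0 _ (hKC i1 hi1 _ hyC))
      refine hd ?_ hy'C
      rw [mem_ball, dist_eq_norm] at hy ⊢
      have hlin : ∀ x : V, ∀ t : ℝ, κ0 (i1 (t • x)) = t • κ0 (i1 x) := by
        intro x t
        rw [hsm, map_smul, map_smul, ← hsm]
      have e2 : ρ⁻¹ • κ0 (i1 y) - (z0 + (s / |ρ| / 2) • w0)
          = ρ⁻¹ • κ0 (i1 (y - (z + (s / 2) • ((ρ / |ρ|) • κ1 (i0 w0))))) := by
        rw [map_sub, map_sub, smul_sub, map_add, map_add, smul_add]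
        congr 2
        · rw [hz1eq, hz0eq, map_smul, map_smul, hsm, ← mul_smul]
          have e3 : κ0 (i1 (κ1 v)) = κ0 v := by
            have := hAB (κ0 v)
            rw [hi0z] at this
            exact this
          rw [e3, ← RCLike.ofReal_mul]
          congr 2
          rw [hρ]
          field_simp
        · rw [hlin, hlin, hAB, smul_smul, smul_smul]
          congr 1
          field_simp
      rw [e2, norm_smul, hK.iso κ0 hκ0, hK.iso i1 hi1, norm_inv, Real.norm_eq_abs]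
      calc |ρ|⁻¹ * ‖y - (z + (s / 2) • ((ρ / |ρ|) • κ1 (i0 w0)))‖ < |ρ|⁻¹ * (s / 2) := by
            gcongr
        _ = s / |ρ| / 2 := by field_simp
  have hsplit : C ⊆ (C \ {0}) ∪ {0} := by
    intro x hx
    by_cases h : x = 0
    · exact Or.inr h
    · exact Or.inl ⟨hx, h⟩
  exact measure_mono_null hsplit (measure_union_null hnull hsing)

end Pool.Agent.BAN.H4
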